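import Pool.Agent.N311.Alt.Main

/-!
# Alternating quotients of `⟨x, y, z | x ^ p, y ^ q, z ^ r, x y z u(x, y, z)⟩`: Q2 is false

For `(p, q, r) = (2, 3, 5)` and infinitely many essentially different commutator words `u` the
number `5` is the only admissible number: the words `u` with `x y z u = φ (x y z)`, where `φ` is an
automorphism of the free group that maps `x`, `y` and `z` to conjugates of themselves.
-/

set_option autoImplicit false

namespace Pool.Agent.Results.MP_73c65d_al.OnlyFive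

/-- The free group on `x`, `y`, `z`. -/
abbrev F := FreeGroup (Fin 3)

def x : F := FreeGroup.of 0
def y : F := FreeGroup.of 1
def z : F := FreeGroup.of 2

/-- `n` is admissible for `p`, `q`, `r`, `u`: there are `ξ, η, ζ` which generate the alternating
group `A_n` with `ξ ^ p = η ^ q = ζ ^ r = ξ η ζ u(ξ, η, ζ) = 1`. -/
def Admissible (p q r : ℕ) (u : F) (n : ℕ) : Prop :=
  ∃ ξ η ζ : alternatingGroup (Fin n),
    Subgroup.closure {ξ, η, ζ} = ⊤ ∧ ξ ^ p = 1 ∧ η ^ q = 1 ∧ ζ ^ r = 1 ∧
      ξ * η * ζ * FreeGroup.lift ![ξ, η, ζ] u = 1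

/-- (1) The assertion of Q2 is false.  (2) For `(2, 3, 5)` and every automorphism `φ` of the free
group that maps `x`, `y`, `z` to conjugates of themselves, `u = (x y z)⁻¹ φ (x y z)` is a
commutator word for which `5` is the only admissible `n ≥ 3`.  (3) There are infinitely many
commutator words, pairwise different modulo the normal closure of `x ^ 2`, `y ^ 3`, `z ^ 5`,
for which `5` is the only admissible `n ≥ 3`. -/
theorem result :
    (¬ ∀ p q r : ℕ, p.Prime → q.Prime → r.Prime → p ≠ q → q ≠ r → p ≠ r →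
      ∀ u ∈ commutator F, {n : ℕ | 3 ≤ n ∧ Admissible p q r u n}.Infinite) ∧
    (∀ φ : F ≃* F, IsConj x (φ x) → IsConj y (φ y) → IsConj z (φ z) →
      (x * y * z)⁻¹ * φ (x * y * z) ∈ commutator F ∧
        ∀ n, 3 ≤ n → (Admissible 2 3 5 ((x * y * z)⁻¹ * φ (x * y * z)) n ↔ n = 5)) ∧
    ∃ U : ℕ → F,
      (∀ k, U k ∈ commutator F ∧ ∀ n, 3 ≤ n → (Admissible 2 3 5 (U k) n ↔ n = 5)) ∧
      ∀ k l, k ≠ l →
        (U k)⁻¹ * U l ∉ Subgroup.normalClosure ({x ^ 2, y ^ 3, z ^ 5} : Set F) := by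
  have h2 : ∀ φ : F ≃* F, IsConj x (φ x) → IsConj y (φ y) → IsConj z (φ z) →
      (x * y * z)⁻¹ * φ (x * y * z) ∈ commutator F ∧
        ∀ n, 3 ≤ n → (Admissible 2 3 5 ((x * y * z)⁻¹ * φ (x * y * z)) n ↔ n = 5) := by
    intro φ hx hy hz
    refine ⟨Pool.Agent.N311.Alt.word_mem φ hx hy hz, fun n hn => ?_⟩
    exact (Pool.Agent.N311.Alt.admissible_word 2 3 5 φ hx hy hz n).trans
      (Pool.Agent.N311.Alt.admissible_one_iff n hn)
  refine ⟨?_, h2, ?_⟩
  · intro h
    have h1 := h 2 3 5 (by norm_num) (by norm_num) (by norm_num) (by norm_num) (by norm_num)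
      (by norm_num) 1 (one_mem _)
    apply h1
    apply (Set.finite_singleton 5).subset
    rintro n ⟨hn, hA⟩
    exact (Pool.Agent.N311.Alt.admissible_one_iff n hn).1 hA
  · refine ⟨fun k => Pool.Agent.N311.Alt.word (Pool.Agent.N311.Alt.pc (k : ℤ)), fun k => ?_, ?_⟩
    · obtain ⟨hx, hy, hz⟩ := Pool.Agent.N311.Alt.pc_isConj (k : ℤ)
      exact h2 _ hx hy hz
    · intro k l hkl hmem
      rcases lt_or_gt_of_ne hkl with h | h
      · obtain ⟨m, rfl⟩ := Nat.exists_eq_add_of_lt h
        exact Pool.Agent.N311.Alt.word_ne k (m + 1) (by omega) (by rw [← add_assoc]; exact hmem)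
      · obtain ⟨m, rfl⟩ := Nat.exists_eq_add_of_lt h
        refine Pool.Agent.N311.Alt.word_ne l (m + 1) (by omega) ?_
        rw [← add_assoc]
        have := inv_mem hmem
        rw [mul_inv_rev, inv_inv] at this
        exact this

end Pool.Agent.Results.MP_73c65d_al.OnlyFive
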